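import Pool.Agent.TH127.PT.Defs
import Mathlib

/-!
# Change of the basis of the de Rham side
-/

set_option autoImplicit false

open Matrix

namespace Run7.h893.NM

open Pool.Agent.TH127.PT

variable {M : Type} [Fintype M] [DecidableEq M]

lemma exists_map {σ : Type} {K : Subfield ℂ} {p : MvPolynomial σ ℂ} (hp : ∀ m, p.coeff m ∈ K) :
    ∃ s : MvPolynomial σ K, MvPolynomial.map K.subtype s = p := by
  have h1 : p ∈ Set.range (MvPolynomial.map K.subtype) := by
    rw [MvPolynomial.mem_range_map_iff_coeffs_subset]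
    intro c hc
    obtain ⟨m, -, rfl⟩ := MvPolynomial.mem_coeffs_iff.1 hc
    exact ⟨⟨_, hp m⟩, rfl⟩
  exact h1

theorem sub_mul_basis {K : Subfield ℂ} {T : Set (Matrix M M ℂ)} (hT : IsSubtorsor K T) {E : Matrix M M ℂ}
    (hE : ∀ a b, E a b ∈ K) (hu : IsUnit E) : IsSubtorsor K {X | X * E ∈ T} := by
  classical
  obtain ⟨I, hI, hI2⟩ := hT.algebraic
  have hdet : IsUnit E.det := (Matrix.isUnit_iff_isUnit_det E).1 hu
  have hunit : ∀ x : Matrix M M ℂ, IsUnit (x * E) ↔ IsUnit x := by
    intro x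
    rw [Matrix.isUnit_iff_isUnit_det, Matrix.isUnit_iff_isUnit_det, det_mul]
    exact ⟨fun h => isUnit_of_mul_isUnit_left h, fun h => h.mul hdet⟩
  refine ⟨fun x hx => (hunit x).1 (hT.isUnit _ hx), fun x hx y hy z hz => ?_,
    (fun p => MvPolynomial.bind₁ (fun b : M × M => ∑ c, MvPolynomial.X (b.1, c) * MvPolynomial.C (E c b.2)) p) '' I, ?_,
    fun x => ?_⟩
  · show x * y⁻¹ * z * E ∈ T
    have h1 : x * y⁻¹ * z * E = x * E * (y * E)⁻¹ * (z * E) := by
      rw [Matrix.mul_inv_rev]
      have e1 : E * E⁻¹ = 1 := mul_nonsing_inv _ hdet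
      calc x * y⁻¹ * z * E = x * (E * E⁻¹) * y⁻¹ * z * E := by rw [e1, Matrix.mul_one]
        _ = _ := by simp only [Matrix.mul_assoc]
    rw [h1]
    exact hT.torsor _ hx _ hy _ hz
  · rintro _ ⟨p, hp, rfl⟩ m
    obtain ⟨s, rfl⟩ := exists_map (hI p hp)
    have h1 : MvPolynomial.bind₁ (fun b : M × M => ∑ c, MvPolynomial.X (b.1, c) * MvPolynomial.C (E c b.2))
        (MvPolynomial.map K.subtype s) = MvPolynomial.map K.subtype (MvPolynomial.bind₁ (fun b : M × M =>
          ∑ c, MvPolynomial.X (b.1, c) * MvPolynomial.C (⟨E c b.2, hE _ _⟩ : K)) s) := by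
      rw [MvPolynomial.map_bind₁]
      congr 2
      funext b
      rw [map_sum]
      refine Finset.sum_congr rfl fun c _ => ?_
      rw [map_mul, MvPolynomial.map_X, MvPolynomial.map_C]
      rfl
    show (MvPolynomial.bind₁ (fun b : M × M => ∑ c, MvPolynomial.X (b.1, c) * MvPolynomial.C (E c b.2))
      (MvPolynomial.map K.subtype s)).coeff m ∈ K
    rw [h1, MvPolynomial.coeff_map]
    exact Subtype.mem _
  · show x * E ∈ T ↔ _
    rw [hI2, hunit]
    refine and_congr_right fun _ => ?_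
    rw [Set.forall_mem_image]
    refine forall₂_congr fun p _ => ?_
    have h2 : MvPolynomial.eval (fun b : M × M => x b.1 b.2)
        (MvPolynomial.bind₁ (fun b : M × M => ∑ c, MvPolynomial.X (b.1, c) * MvPolynomial.C (E c b.2)) p) =
        MvPolynomial.eval (fun b => (x * E) b.1 b.2) p := by
      have ae : ∀ (v : M × M → ℂ) (p : MvPolynomial (M × M) ℂ), MvPolynomial.eval v p = MvPolynomial.aeval v p :=
        fun _ _ => rfl
      rw [ae, ae, MvPolynomial.aeval_bind₁]
      congr 2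
      funext b
      rw [map_sum, Matrix.mul_apply]
      refine Finset.sum_congr rfl fun c _ => ?_
      rw [map_mul, MvPolynomial.aeval_X, MvPolynomial.aeval_C]
      rfl
    show _ ↔ MvPolynomial.eval (fun b : M × M => x b.1 b.2)
        (MvPolynomial.bind₁ (fun b : M × M => ∑ c, MvPolynomial.X (b.1, c) * MvPolynomial.C (E c b.2)) p) = 0
    rw [h2]

end Run7.h893.NM
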