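import Pool.Agent.Run7.h893.NM.Comb

/-!
# The number of exceptional tuples
-/

set_option autoImplicit false
set_option linter.unusedSectionVars false

open Matrix

namespace Run7.h893.NM

open Pool.Agent.TH127.PT Pool.Agent.Y123.ST Pool.Agent.Y123.SR Pool.Agent.Y113 Pool.Agent.Y113.GG Pool.Agent.Y123.GN
open Pool.Agent.Y119.HZ (Jx pw Yt)
open Run7.h893.HO Run7.h893.NF Run7.h893.TO Run7.h893.NT

/-- tuples whose coordinate `i` is exceptional with respect to the others -/
theorem few_slices {k : ℕ} (i : Fin k) (x : Fin k → ℕ) (N : ℕ) (R : ℝ) (hR : 0 ≤ R) (S : Finset (Fin k → ℕ))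
    (hbox : ∀ t ∈ S, ∀ i, x i < t i ∧ t i ≤ x i + N)
    (h : ∀ b : Fin k → ℕ, (∀ j, j ≠ i → x j < b j ∧ b j ≤ x j + N) → ∀ F : Finset (Fin 1 → ℕ),
      (∀ s ∈ F, Function.update b i (s 0) ∈ S) → (F.card : ℝ) ≤ R) :
    (S.card : ℝ) ≤ R * (N : ℝ) ^ (k - 1) := by
  classical
  set A : Finset (Fin k → ℕ) := Fintype.piFinset fun j => if j = i then {0} else Finset.Ioc (x j) (x j + N) with hA
  have hAc : A.card = N ^ (k - 1) := by
    rw [hA, Fintype.card_piFinset]
    have h1 : ∀ j, (if j = i then ({0} : Finset ℕ) else Finset.Ioc (x j) (x j + N)).card = if j = i then 1 else N := by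
      intro j
      split_ifs
      · exact Finset.card_singleton _
      · rw [Nat.card_Ioc, Nat.add_sub_cancel_left]
    simp only [h1]
    rw [Finset.prod_ite, Finset.prod_const_one, one_mul, Finset.prod_const]
    congr 1
    have h2 : (Finset.univ.filter fun j : Fin k => ¬ j = i) = Finset.univ.erase i := by
      ext j
      simp
    rw [h2, Finset.card_erase_of_mem (Finset.mem_univ _), Finset.card_univ, Fintype.card_fin]
  have hmaps : ∀ t ∈ S, Function.update t i 0 ∈ A := by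
    intro t ht
    rw [hA, Fintype.mem_piFinset]
    intro j
    by_cases hj : j = i
    · subst hj
      rw [if_pos rfl, Function.update_self]
      exact Finset.mem_singleton_self _
    · rw [if_neg hj, Function.update_of_ne hj, Finset.mem_Ioc]
      exact hbox t ht j
  have hfib : ∀ b ∈ A, (S.filter fun t => Function.update t i 0 = b).card ≤ ⌊R⌋₊ := by
    intro b hb
    rw [hA, Fintype.mem_piFinset] at hb
    refine Nat.le_floor ?_
    have h1 := h b (fun j hj => by
      have := hb j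
      rw [if_neg hj, Finset.mem_Ioc] at this
      exact this) ((S.filter fun t => Function.update t i 0 = b).image fun t => fun _ => t i) (by
      intro s hs
      obtain ⟨t, ht, rfl⟩ := Finset.mem_image.1 hs
      obtain ⟨ht1, ht2⟩ := Finset.mem_filter.1 ht
      have h3 : Function.update b i (t i) = t := by
        rw [← ht2, Function.update_idem, Function.update_eq_self]
      show Function.update b i (t i) ∈ S
      rw [h3]
      exact ht1)
    rw [Finset.card_image_of_injOn] at h1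
    · exact h1
    · intro t ht t' ht' htt
      obtain ⟨ht1, ht2⟩ := Finset.mem_filter.1 ht
      obtain ⟨ht1', ht2'⟩ := Finset.mem_filter.1 ht'
      have h4 : t i = t' i := congrFun htt 0
      have h3 : Function.update b i (t i) = t := by
        rw [← ht2, Function.update_idem, Function.update_eq_self]
      have h3' : Function.update b i (t' i) = t' := by
        rw [← ht2', Function.update_idem, Function.update_eq_self]
      rw [← h3, ← h3', h4]
  have h5 := Finset.card_le_mul_card_image_of_maps_to hmaps _ hfib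
  rw [hAc] at h5
  calc (S.card : ℝ) ≤ ((⌊R⌋₊ * N ^ (k - 1) : ℕ) : ℝ) := by exact_mod_cast h5
    _ = (⌊R⌋₊ : ℝ) * (N : ℝ) ^ (k - 1) := by push_cast; ring
    _ ≤ R * (N : ℝ) ^ (k - 1) := mul_le_mul_of_nonneg_right (Nat.floor_le hR) (by positivity)

lemma kum_tpi_unit (l : ℂ) : IsUnit (kum l tpi) := kum_unit tpi_ne

/-- **All subtorsors are stable, for finitely many families of all kinds.** -/
theorem stab_all (k D r : ℕ) (n q : Fin k → ℕ) (Q : Fin k → Polynomial ℚ)
    (J0 : ∀ i, Matrix (Fin (n i)) (Fin (n i)) ℂ)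
    (B : ∀ i, ℂ → Matrix (Fin (n i)) (Fin (n i)) ℂ) (U : ∀ i, ℕ → Matrix (Fin (n i)) (Fin (q i)) ℂ)
    (hQ : ∀ i, Fam (n i) (Q i) (J0 i) (B i))
    (hJ : ∀ i, (J0 i)ᵀ = -J0 i ∨ ((J0 i)ᵀ = J0 i ∧ 3 ≤ n i))
    (hTP : ∀ i, TP 1 (fun _ => n i) (fun _ => q i) (fun _ => Q i) (fun _ => J0 i) (fun _ => B i) (fun _ => U i)) :
    ∃ c C : ℝ, 0 < c ∧ 0 ≤ C ∧
      ∀ (B₀ : Type) [Fintype B₀] [DecidableEq B₀] (c₀ : Matrix B₀ B₀ ℂ), Fintype.card B₀ ≤ r → IsUnit c₀ →
      ∀ Ω : (∀ i, Matrix (Fin (n i)) (Fin (n i)) ℂ), (∀ i, IsUnit (Ω i)) →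
      ∀ (w : ∀ i, Matrix (Fin (n i)) (Fin (q i)) ℂ) (a : ∀ i, Matrix (Fin (q i)) (Fin (q i)) ℂ), (∀ i, IsUnit (a i)) →
      ∀ (x : Fin k → ℕ) (N : ℕ), (∀ i, 1 ≤ x i) →
      1 ≤ N → ∀ S : Finset (Fin k → ℕ), (∀ t ∈ S, (∀ i, x i < t i ∧ t i ≤ x i + N) ∧ ¬ StaU D c₀ Q J0 U Ω w a t) →
      (S.card : ℝ) ≤ C * (N : ℝ) ^ (k - 1) * ∑ i, (1 + N / ((x i : ℝ) + N) ^ c) := by
  classical
  have h1 := fun i => stab_of_TP 1 D (r + ∑ j, (2 + (n j + q j))) (fun _ => n i) (fun _ => q i) (fun _ => Q i)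
    (fun _ => J0 i) (fun _ => B i) (fun _ => U i) (fun _ => hQ i) (fun _ => hJ i) (hTP i)
  choose c C hc hC hmain using h1
  obtain ⟨c', hc', hcle⟩ : ∃ c' : ℝ, 0 < c' ∧ ∀ i, c' ≤ c i := by
    rcases isEmpty_or_nonempty (Fin k) with he | he
    · exact ⟨1, one_pos, fun i => (he.false i).elim⟩
    · obtain ⟨i0, hi0⟩ := Finite.exists_min c
      exact ⟨c i0, hc i0, hi0⟩
  refine ⟨c', ∑ i, C i, hc', Finset.sum_nonneg fun i _ => hC i, ?_⟩
  intro B₀ _ _ c₀ hr hc₀ Ω hΩ w a ha x N hx hN S hS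
  set Si : Fin k → Finset (Fin k → ℕ) := fun i => S.filter fun t => ¬ StaI D c₀ Q J0 U Ω w a t i with hSi
  have hcov : S ⊆ Finset.univ.biUnion Si := by
    intro t ht
    by_contra hcon
    apply (hS t ht).2
    refine staU_of fun i => ?_
    by_contra hni
    exact hcon (Finset.mem_biUnion.2 ⟨i, Finset.mem_univ _, Finset.mem_filter.2 ⟨ht, hni⟩⟩)
  have hcard : ∀ i, ((Si i).card : ℝ) ≤ C i * (1 + N / ((x i : ℝ) + N) ^ c i) * (N : ℝ) ^ (k - 1) := by
    intro i
    refine few_slices i x N _ (mul_nonneg (hC i) (by positivity)) (Si i) (fun t ht => (hS t (Finset.mem_filter.1 ht).1).1) ?_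
    intro b hb F hF
    have hb2 : ∀ j, j ≠ i → 2 ≤ b j := fun j hj => by
      have := (hb j hj).1
      have := hx j
      omega
    have hRu : IsUnit (Rs c₀ Q U Ω w a i b) := by
      have h3 : Rs c₀ Q U Ω w a i b = Rs c₀ Q U Ω w a i (Function.update b i 2) := (Rs_update i 2).symm
      rw [h3]
      refine rest_unit i hc₀ (fun j _ => kum_tpi_unit _) fun j hj => ?_
      refine cU_unit hQ hΩ w ha (fun j => ?_) j
      by_cases hji : j = i
      · subst hji
        rw [Function.update_self]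
      · rw [Function.update_of_ne hji]
        exact hb2 j hji
    have hcd : Fintype.card (Rest B₀ (fun i => n i + q i) i) ≤ r + ∑ j, (2 + (n j + q j)) :=
      (card_Rest i).trans (Nat.add_le_add_right hr _)
    have h2 := hmain i (Rest B₀ (fun i => n i + q i) i) (Rs c₀ Q U Ω w a i b) hcd hRu (fun _ => Ω i) (fun _ => hΩ i)
      (fun _ => w i) (fun _ => a i) (fun _ => ha i) (fun _ => x i) N (fun _ => hx i) hN F (by
        intro s hs
        have h4 := Finset.mem_filter.1 (hF s hs)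
        have h5 := (hS _ h4.1).1 i
        rw [Function.update_self] at h5
        refine ⟨fun j => ?_, fun hst => h4.2 ?_⟩
        · rw [Subsingleton.elim j 0]
          exact h5
        · refine staI_of i ?_
          rw [Rs_update]
          have h6 : (fun _ : Fin 1 => Function.update b i (s 0) i) = s := by
            funext j
            rw [Function.update_self, Subsingleton.elim j 0]
          rw [h6]
          exact hst)
    rw [Nat.sub_self, pow_zero, mul_one, Finset.univ_unique, Finset.sum_singleton] at h2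
    exact h2
  have hmono : ∀ i, 1 + (N : ℝ) / ((x i : ℝ) + N) ^ c i ≤ 1 + N / ((x i : ℝ) + N) ^ c' := by
    intro i
    have hpos : (1 : ℝ) ≤ (x i : ℝ) + N := by
      have : (1 : ℝ) ≤ N := by exact_mod_cast hN
      have : (0 : ℝ) ≤ x i := Nat.cast_nonneg _
      linarith
    have h3 : ((x i : ℝ) + N) ^ c' ≤ ((x i : ℝ) + N) ^ c i := Real.rpow_le_rpow_of_exponent_le hpos (hcle i)
    have h4 : (0 : ℝ) < ((x i : ℝ) + N) ^ c' := Real.rpow_pos_of_pos (by linarith) _
    have h5 := div_le_div_of_nonneg_left (Nat.cast_nonneg N : (0 : ℝ) ≤ N) h4 h3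
    linarith
  calc (S.card : ℝ) ≤ ((Finset.univ.biUnion Si).card : ℝ) := by exact_mod_cast Finset.card_le_card hcov
    _ ≤ ∑ i, ((Si i).card : ℝ) := by exact_mod_cast Finset.card_biUnion_le
    _ ≤ ∑ i, (∑ j, C j) * (N : ℝ) ^ (k - 1) * (1 + N / ((x i : ℝ) + N) ^ c') := by
        refine Finset.sum_le_sum fun i _ => (hcard i).trans ?_
        have h6 : C i ≤ ∑ j, C j := Finset.single_le_sum (fun j _ => hC j) (Finset.mem_univ i)
        have h7 : (0 : ℝ) ≤ 1 + N / ((x i : ℝ) + N) ^ c i := by positivity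
        calc C i * (1 + N / ((x i : ℝ) + N) ^ c i) * (N : ℝ) ^ (k - 1)
            ≤ (∑ j, C j) * (1 + N / ((x i : ℝ) + N) ^ c') * (N : ℝ) ^ (k - 1) :=
              mul_le_mul_of_nonneg_right (mul_le_mul h6 (hmono i) h7 ((hC i).trans h6)) (by positivity)
          _ = _ := by ring
    _ = _ := by rw [Finset.mul_sum]

end Run7.h893.NM
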