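import Pool.Agent.Run7.h893.NT.Unif
import Pool.Agent.Run7.h893.TO.Hyp

/-!
# All subtorsors over all number fields of bounded degree are stable, for almost all tuples
-/

set_option autoImplicit false
set_option linter.unusedSectionVars false

open Matrix

namespace Run7.h893.NM

open Pool.Agent.TH127.PT Pool.Agent.Y123.ST Pool.Agent.Y123.SR Pool.Agent.Y113 Pool.Agent.Y113.GG Pool.Agent.Y123.GN
open Pool.Agent.Y119.HZ (Jx pw Yt)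
open Run7.h893.HO Run7.h893.TO Run7.h893.NT

section
variable {B₀ : Type} [Fintype B₀] [DecidableEq B₀] {k : ℕ} {n : Fin k → ℕ}

/-- the subtorsors over all number fields of degree at most `D` are stable -/
def StaP (D : ℕ) (c₀ : Matrix B₀ B₀ ℂ) (Q : Fin k → Polynomial ℚ) (J0 : ∀ i, Matrix (Fin (n i)) (Fin (n i)) ℂ)
    (Ω : ∀ i, Matrix (Fin (n i)) (Fin (n i)) ℂ) (t : Fin k → ℕ) : Prop :=
  ∀ K : Subfield ℂ, FiniteDimensional ℚ K → Module.finrank ℚ K ≤ D →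
  ∀ T : Set (Matrix (IM B₀ n) (IM B₀ n) ℂ), IsSubtorsor K T → tot c₀ Q Ω t ∈ T →
    ∀ (a : Fin k → ℂ) (g : ∀ i, Matrix (Fin (n i)) (Fin (n i)) ℂ), (∀ i, SI (PO J0 Ω i) (g i)) →
      ∀ x ∈ T, EM 1 (fun i => uu (a i)) g * x ∈ T

end

theorem SI_mul' {m : ℕ} {P g h : Matrix (Fin m) (Fin m) ℂ} (hg : SI P g) (hh : SI P h) : SI P (g * h) := by
  refine ⟨?_, by rw [det_mul, hg.2, hh.2, one_mul]⟩
  calc g * h * P * (g * h)ᵀ = g * (h * P * hᵀ) * gᵀ := by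
        rw [transpose_mul]
        simp only [Matrix.mul_assoc]
    _ = P := by rw [hh.1, hg.1]

theorem SI_inv' {m : ℕ} {P g : Matrix (Fin m) (Fin m) ℂ} (hg : SI P g) : ∃ h, SI P h ∧ g * h = 1 := by
  have hd : IsUnit g.det := by rw [hg.2]; exact isUnit_one
  have h1 : g * g⁻¹ = 1 := mul_nonsing_inv _ hd
  have h2 : g⁻¹ * g = 1 := nonsing_inv_mul _ hd
  refine ⟨g⁻¹, ⟨?_, ?_⟩, h1⟩
  · have h3 : gᵀ * (g⁻¹)ᵀ = 1 := by rw [← transpose_mul, h2, transpose_one]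
    calc g⁻¹ * P * (g⁻¹)ᵀ = g⁻¹ * (g * P * gᵀ) * (g⁻¹)ᵀ := by rw [hg.1]
      _ = (g⁻¹ * g) * P * (gᵀ * (g⁻¹)ᵀ) := by simp only [Matrix.mul_assoc]
      _ = P := by rw [h2, h3, Matrix.one_mul, Matrix.mul_one]
  · have h4 := congrArg Matrix.det h1
    rw [det_mul, hg.2, one_mul, det_one] at h4
    exact h4

/-- **All subtorsors are stable under the isometries, for almost all tuples.** -/
theorem hyp_stab_u (k D r : ℕ) (n : Fin k → ℕ) (Q : Fin k → Polynomial ℚ) (J0 : ∀ i, Matrix (Fin (n i)) (Fin (n i)) ℂ)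
    (B : ∀ i, ℂ → Matrix (Fin (n i)) (Fin (n i)) ℂ) (hQ : ∀ i, Fam (n i) (Q i) (J0 i) (B i))
    (hJ : ∀ i, (J0 i)ᵀ = -J0 i ∨ ((J0 i)ᵀ = J0 i ∧ 3 ≤ n i)) :
    ∃ c C : ℝ, 0 < c ∧ 0 ≤ C ∧
      ∀ (B₀ : Type) [Fintype B₀] [DecidableEq B₀] (c₀ : Matrix B₀ B₀ ℂ), Fintype.card B₀ ≤ r → IsUnit c₀ →
      ∀ Ω : (∀ i, Matrix (Fin (n i)) (Fin (n i)) ℂ), (∀ i, IsUnit (Ω i)) → ∀ (x : Fin k → ℕ) (N : ℕ), (∀ i, 1 ≤ x i) →
      1 ≤ N → ∀ S : Finset (Fin k → ℕ), (∀ t ∈ S, (∀ i, x i < t i ∧ t i ≤ x i + N) ∧ ¬ StaP D c₀ Q J0 Ω t) →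
      (S.card : ℝ) ≤ C * (N : ℝ) ^ (k - 1) * ∑ i, (1 + N / ((x i : ℝ) + N) ^ c) := by
  classical
  obtain ⟨d, hd⟩ := stabK (r + ∑ i, (2 + n i)) D
  obtain ⟨c, C, hc, hC, hmain⟩ := tuples_log k d ((1 + (r * r + 1) + 1) ^ (d + 1)) n Q J0 B hQ
  refine ⟨c, C, hc, hC, ?_⟩
  intro B₀ _ _ c₀ hr hc₀ Ω hΩ x N hx hN S hS
  obtain ⟨hbf, hb1⟩ := bot_fin
  obtain ⟨W, hW1, hW2, hKW, hW3⟩ := exists_W' (⊥ : Subfield ℂ) (fun o : Option (B₀ × B₀) => o.elim tpi fun b => c₀ b.1 b.2)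
  obtain ⟨hp1, hp2⟩ := finrank_pow_le W (d + 1)
  have hWD : Module.finrank ℚ W ≤ 1 + (r * r + 1) + 1 := by
    refine hW2.trans ?_
    rw [Fintype.card_option, Fintype.card_prod]
    have := Nat.mul_le_mul hr hr
    omega
  have hUG : ∀ i, ∃ 𝒩, UG (SI (PO J0 Ω i)) 𝒩 := by
    intro i
    rcases hJ i with h | ⟨h, h3⟩
    · refine ⟨_, UG.skew ?_ (PO_det hQ hΩ i)⟩
      unfold PO
      rw [transpose_mul, transpose_mul, transpose_transpose, h, Matrix.neg_mul, Matrix.mul_neg, Matrix.mul_assoc]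
    · refine ⟨_, UG.symm ?_ (PO_det hQ hΩ i) h3⟩
      unfold PO
      rw [transpose_mul, transpose_mul, transpose_transpose, h, Matrix.mul_assoc]
  choose 𝒩 h𝒩 using hUG
  refine hmain (W ^ (d + 1)) (hp2.trans (Nat.pow_le_pow_left hWD _)) Ω x N hx hN S fun t ht => ?_
  obtain ⟨hbox, hSt⟩ := hS t ht
  refine ⟨hbox, ?_⟩
  by_contra hcon
  apply hSt
  have ht2 : ∀ i, 2 ≤ t i := fun i => by
    have := (hbox i).1
    have := hx i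
    omega
  intro K hKf hKD T hT hcT u₀ g₀ hg₀
  refine hd B₀ k n ?_ c₀ _ (cM Q Ω t) (fun i => SI (PO J0 Ω i)) 𝒩 hc₀ (cM_unit' hQ hΩ ht2) h𝒩
    (fun i a b => SI_mul') (fun i a => SI_inv') ?_ K hKf hKD T hT hcT u₀ g₀ hg₀
  · rw [card_IM]
    exact Nat.add_le_add_right hr _
  · intro a g hg
    have hcM : cM Q Ω t = fun i => (Yt (n i) (Q i) (t i) * Ω i)ᵀ := rfl
    have hgc : (fun i => g i * cM Q Ω t i) = fun i => (Yt (n i) (Q i) (t i) * Ω i * (g i)ᵀ)ᵀ := by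
      funext i
      rw [transpose_mul, transpose_transpose]
      rfl
    rw [hgc, hcM]
    have hΩi : ∀ i, (Ω i)⁻¹ * Ω i = 1 := fun i => nonsing_inv_mul _ ((Matrix.isUnit_iff_isUnit_det _).1 (hΩ i))
    have hΩi' : ∀ i, Ω i * (Ω i)⁻¹ = 1 := fun i => mul_nonsing_inv _ ((Matrix.isUnit_iff_isUnit_det _).1 (hΩ i))
    refine Rl_of hKW (PhiM_DC (hKW 1 (⊥ : Subfield ℂ).one_mem) (fun a b => hW3 (some (a, b))) (hW3 none)) (y := pw (fun i => ((Real.log (t i) : ℝ) : ℂ))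
      fun i => Yt (n i) (Q i) (t i) * Ω i) (y' := pw (fun i => ((Real.log (t i) : ℝ) : ℂ) + a i * tpi)
      fun i => (Yt (n i) (Q i) (t i) * Ω i * (g i)ᵀ * (Ω i)⁻¹) * Ω i) ?_ (fun b => PhiM_eval c₀ tpi _ _ b) (fun b => ?_)
    · intro P hPd hPV hP0
      by_contra hne
      refine hcon ⟨P, hPd, hPV, hP0, _, _, fun i => ?_, hne⟩
      have hiso : (g i)ᵀᵀ = g i := transpose_transpose _
      have hPi := (hg i).1
      unfold PO at hPi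
      have e1 : (Yt (n i) (Q i) (t i) * Ω i * (g i)ᵀ * (Ω i)⁻¹)ᵀ = ((Ω i)⁻¹)ᵀ * (g i * ((Ω i)ᵀ * (Yt (n i) (Q i) (t i))ᵀ)) := by
        rw [transpose_mul, transpose_mul, transpose_mul, hiso]
      have e2 : ((Ω i)⁻¹)ᵀ * (Ω i)ᵀ = 1 := by rw [← transpose_mul, hΩi', transpose_one]
      rw [e1]
      calc ((Ω i)⁻¹)ᵀ * (g i * ((Ω i)ᵀ * (Yt (n i) (Q i) (t i))ᵀ)) * B i (((1 / (t i : ℝ) : ℝ)) : ℂ) *
            (Yt (n i) (Q i) (t i) * Ω i * (g i)ᵀ * (Ω i)⁻¹) =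
          ((Ω i)⁻¹)ᵀ * (g i * ((Ω i)ᵀ * ((Yt (n i) (Q i) (t i))ᵀ * B i (((1 / (t i : ℝ) : ℝ)) : ℂ) *
            Yt (n i) (Q i) (t i)) * Ω i) * (g i)ᵀ) * (Ω i)⁻¹ := by simp only [Matrix.mul_assoc]
        _ = (((Ω i)⁻¹)ᵀ * (Ω i)ᵀ) * J0 i * (Ω i * (Ω i)⁻¹) := by
            rw [(hQ i).Yt_form (ht2 i), hPi]
            simp only [Matrix.mul_assoc]
        _ = J0 i := by rw [e2, hΩi', Matrix.one_mul, Matrix.mul_one]
    · have h1 := PhiM_eval c₀ tpi (fun i => ((Real.log (t i) : ℝ) : ℂ) + a i * tpi)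
        (fun i => (Yt (n i) (Q i) (t i) * Ω i * (g i)ᵀ * (Ω i)⁻¹) * Ω i) b
      refine Eq.trans ?_ h1
      have h2 : (fun i => (Yt (n i) (Q i) (t i) * Ω i * (g i)ᵀ)ᵀ) =
          fun i => (Yt (n i) (Q i) (t i) * Ω i * (g i)ᵀ * (Ω i)⁻¹ * Ω i)ᵀ := by
        funext i
        rw [Matrix.mul_assoc _ (Ω i)⁻¹, hΩi, Matrix.mul_one]
      rw [h2]

end Run7.h893.NM
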