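import Pool.Agent.Run7.h893.NM.Peel

/-!
# From one family to finitely many families of all kinds
-/

set_option autoImplicit false
set_option linter.unusedSectionVars false

open Matrix

namespace Run7.h893.NM

open Pool.Agent.TH127.PT Pool.Agent.Y123.ST Pool.Agent.Y123.SR Pool.Agent.Y113 Pool.Agent.Y113.GG Pool.Agent.Y123.GN
open Pool.Agent.Y119.HZ (Jx pw Yt)
open Run7.h893.HO Run7.h893.NF Run7.h893.TO Run7.h893.NT

section
variable {B₀ : Type} [Fintype B₀] [DecidableEq B₀] {k : ℕ} {n q : Fin k → ℕ}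
  {D : ℕ} {c₀ : Matrix B₀ B₀ ℂ} {Q : Fin k → Polynomial ℚ} {J0 : ∀ i, Matrix (Fin (n i)) (Fin (n i)) ℂ}
  {B : ∀ i, ℂ → Matrix (Fin (n i)) (Fin (n i)) ℂ} {U : ∀ i, ℕ → Matrix (Fin (n i)) (Fin (q i)) ℂ}
  {Ω : ∀ i, Matrix (Fin (n i)) (Fin (n i)) ℂ} {w : ∀ i, Matrix (Fin (n i)) (Fin (q i)) ℂ}
  {a : ∀ i, Matrix (Fin (q i)) (Fin (q i)) ℂ} {t : Fin k → ℕ}

/-- the subtorsors are stable under the group of one family -/
def StaI (D : ℕ) (c₀ : Matrix B₀ B₀ ℂ) (Q : Fin k → Polynomial ℚ) (J0 : ∀ i, Matrix (Fin (n i)) (Fin (n i)) ℂ)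
    (U : ∀ i, ℕ → Matrix (Fin (n i)) (Fin (q i)) ℂ)
    (Ω : ∀ i, Matrix (Fin (n i)) (Fin (n i)) ℂ) (w : ∀ i, Matrix (Fin (n i)) (Fin (q i)) ℂ)
    (a : ∀ i, Matrix (Fin (q i)) (Fin (q i)) ℂ) (t : Fin k → ℕ) (i : Fin k) : Prop :=
  ∀ K : Subfield ℂ, FiniteDimensional ℚ K → Module.finrank ℚ K ≤ D →
  ∀ T : Set (Matrix (IM B₀ fun i => n i + q i) (IM B₀ fun i => n i + q i) ℂ), IsSubtorsor K T →
    EM c₀ (fun i => kum ((Real.log (t i) : ℝ) : ℂ) tpi) (cU Q U Ω w a t) ∈ T →
    ∀ (u : ℂ) (g : Matrix (Fin (n i)) (Fin (n i)) ℂ) (x : Matrix (Fin (q i)) (Fin (n i)) ℂ),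
      SI (PO J0 Ω i) g → ∀ X ∈ T, EM 1 (Function.update (fun _ => 1) i (uu u))
        (Function.update (fun _ => 1) i (bk g 0 x 1)) * X ∈ T

theorem staU_of (h : ∀ i, StaI D c₀ Q J0 U Ω w a t i) : StaU D c₀ Q J0 U Ω w a t := by
  classical
  intro K hKf hKD T hT hcT u g x hg
  have key : ∀ F : Finset (Fin k), ∀ X ∈ T, EM 1 (fun i => if i ∈ F then uu (u i) else 1)
      (fun i => if i ∈ F then bk (g i) 0 (x i) 1 else 1) * X ∈ T := by
    intro F
    induction F using Finset.induction_on with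
    | empty =>
      intro X hX
      have e : EM (1 : Matrix B₀ B₀ ℂ) (fun i => if i ∈ (∅ : Finset (Fin k)) then uu (u i) else 1)
          (fun i => if i ∈ (∅ : Finset (Fin k)) then bk (g i) 0 (x i) 1 else 1) = 1 := by
        rw [← EM_one]
        congr 1
      rw [e, Matrix.one_mul]
      exact hX
    | insert i F hi ih =>
      intro X hX
      have h1 := h i K hKf hKD T hT hcT (u i) (g i) (x i) (hg i) _ (ih X hX)
      rw [← Matrix.mul_assoc, EM_mul, Matrix.one_mul] at h1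
      have e1 : (fun j => Function.update (fun _ => (1 : Matrix (Fin 2) (Fin 2) ℂ)) i (uu (u i)) j *
          (if j ∈ F then uu (u j) else 1)) = fun j => if j ∈ insert i F then uu (u j) else 1 := by
        funext j
        by_cases hj : j = i
        · subst hj
          rw [Function.update_self, if_neg hi, if_pos (Finset.mem_insert_self _ _), Matrix.mul_one]
        · rw [Function.update_of_ne hj, Matrix.one_mul]
          simp only [Finset.mem_insert, hj, false_or]
      have e2 : (fun j => Function.update (fun j => (1 : Matrix (Fin (n j + q j)) (Fin (n j + q j)) ℂ)) i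
          (bk (g i) 0 (x i) 1) j * (if j ∈ F then bk (g j) 0 (x j) 1 else 1)) =
          fun j => if j ∈ insert i F then bk (g j) 0 (x j) 1 else 1 := by
        funext j
        by_cases hj : j = i
        · subst hj
          rw [Function.update_self, if_neg hi, if_pos (Finset.mem_insert_self _ _), Matrix.mul_one]
        · rw [Function.update_of_ne hj, Matrix.one_mul]
          simp only [Finset.mem_insert, hj, false_or]
      rw [e1, e2] at h1
      exact h1
  intro X hX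
  have h1 := key Finset.univ X hX
  simp only [Finset.mem_univ, if_true] at h1
  exact h1

/-- the others -/
noncomputable def Rs (c₀ : Matrix B₀ B₀ ℂ) (Q : Fin k → Polynomial ℚ)
    (U : ∀ i, ℕ → Matrix (Fin (n i)) (Fin (q i)) ℂ)
    (Ω : ∀ i, Matrix (Fin (n i)) (Fin (n i)) ℂ) (w : ∀ i, Matrix (Fin (n i)) (Fin (q i)) ℂ)
    (a : ∀ i, Matrix (Fin (q i)) (Fin (q i)) ℂ) (i : Fin k) (b : Fin k → ℕ) :
    Matrix (Rest B₀ (fun i => n i + q i) i) (Rest B₀ (fun i => n i + q i) i) ℂ :=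
  rest i c₀ (fun j => kum ((Real.log (b j) : ℝ) : ℂ) tpi) (cU Q U Ω w a b)

lemma Rs_update (i : Fin k) (s : ℕ) : Rs c₀ Q U Ω w a i (Function.update t i s) = Rs c₀ Q U Ω w a i t := by
  unfold Rs rest
  congr 2
  funext j
  show fromBlocks (kum ((Real.log (Function.update t i s j.1) : ℝ) : ℂ) tpi) 0 0
    (bk (Yt (n j.1) (Q j.1) (Function.update t i s j.1)) (U j.1 (Function.update t i s j.1)) 0 1 *
      bk (Ω j.1) (w j.1) 0 (a j.1))ᵀ = _
  rw [Function.update_of_ne j.2]
  rfl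

lemma sub_mem_iff {M M' : Type} [Fintype M] [DecidableEq M] [Fintype M'] [DecidableEq M'] (σ : M' ≃ M)
    (T : Set (Matrix M M ℂ)) (Z : Matrix M M ℂ) :
    Z.submatrix σ σ ∈ {X : Matrix M' M' ℂ | X.submatrix σ.symm σ.symm ∈ T} ↔ Z ∈ T := by
  show (Z.submatrix σ σ).submatrix σ.symm σ.symm ∈ T ↔ _
  rw [submatrix_submatrix]
  have h1 : σ ∘ σ.symm = id := by
    funext a
    simp
  rw [h1, submatrix_id_id]

lemma EM_one_sub {m : Fin k → ℕ} (i : Fin k) (u : Matrix (Fin 2) (Fin 2) ℂ) (b : Matrix (Fin (m i)) (Fin (m i)) ℂ) :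
    EM (1 : Matrix (Rest B₀ m i) (Rest B₀ m i) ℂ) (fun _ : Fin 1 => u) (fun _ => b) =
      (EM (1 : Matrix B₀ B₀ ℂ) (Function.update (fun _ => 1) i u) (Function.update (fun _ => 1) i b)).submatrix
        (si B₀ m i) (si B₀ m i) := by
  rw [EM_sub, Function.update_self, Function.update_self]
  congr 1
  rw [← rest_one (m := m) i]
  unfold rest
  congr 2
  funext j
  rw [Function.update_of_ne j.2, Function.update_of_ne j.2]

theorem staI_of (i : Fin k)
    (h : StaU (k := 1) (n := fun _ => n i) (q := fun _ => q i) D (Rs c₀ Q U Ω w a i t) (fun _ => Q i) (fun _ => J0 i)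
      (fun _ => U i) (fun _ => Ω i) (fun _ => w i) (fun _ => a i) fun _ => t i) : StaI D c₀ Q J0 U Ω w a t i := by
  classical
  intro K hKf hKD T hT hcT u g x hg X hX
  have hT' := Run7.h893.AT.sub_reindex (si B₀ (fun i => n i + q i) i) hT
  have h1 := h K hKf hKD _ hT' (by
    have h2 := (sub_mem_iff (si B₀ (fun i => n i + q i) i) T _).2 hcT
    rw [EM_sub] at h2
    exact h2) (fun _ => u) (fun _ => g) (fun _ => x) (fun _ => hg) _
      ((sub_mem_iff (si B₀ (fun i => n i + q i) i) T X).2 hX)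
  have e' : EM (1 : Matrix (Rest B₀ (fun i => n i + q i) i) (Rest B₀ (fun i => n i + q i) i) ℂ) (fun _ : Fin 1 => uu u)
      (fun _ => bk g 0 x 1) * X.submatrix (si B₀ (fun i => n i + q i) i) (si B₀ (fun i => n i + q i) i) =
      (EM (1 : Matrix B₀ B₀ ℂ) (Function.update (fun _ => 1) i (uu u))
        (Function.update (fun _ => 1) i (bk g 0 x 1)) * X).submatrix (si B₀ (fun i => n i + q i) i)
          (si B₀ (fun i => n i + q i) i) := by
    rw [EM_one_sub (m := fun i => n i + q i), Matrix.submatrix_mul_equiv]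
  have h3 := (sub_mem_iff (si B₀ (fun i => n i + q i) i) T
    (EM (1 : Matrix B₀ B₀ ℂ) (Function.update (fun _ => 1) i (uu u)) (Function.update (fun _ => 1) i (bk g 0 x 1)) * X)).1
  refine h3 ?_
  rw [← e']
  exact h1

end

end Run7.h893.NM
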