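import Pool.Agent.Run7.h893.NM.Tp

/-!
# All subtorsors are stable, for almost all tuples of fibres
-/

set_option autoImplicit false
set_option linter.unusedSectionVars false

open Matrix

namespace Run7.h893.NM

open Pool.Agent.TH127.PT Pool.Agent.Y123.ST Pool.Agent.Y123.SR Pool.Agent.Y113 Pool.Agent.Y113.GG Pool.Agent.Y123.GN
open Pool.Agent.Y119.HZ (Jx pw Yt)
open Run7.h893.HO Run7.h893.NF Run7.h893.TO Run7.h893.NT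

section
variable {B₀ : Type} [Fintype B₀] [DecidableEq B₀] {k : ℕ} {n q : Fin k → ℕ}

/-- the period matrices of the fibres -/
noncomputable def cU (Q : Fin k → Polynomial ℚ) (U : ∀ i, ℕ → Matrix (Fin (n i)) (Fin (q i)) ℂ)
    (Ω : ∀ i, Matrix (Fin (n i)) (Fin (n i)) ℂ)
    (w : ∀ i, Matrix (Fin (n i)) (Fin (q i)) ℂ) (a : ∀ i, Matrix (Fin (q i)) (Fin (q i)) ℂ) (t : Fin k → ℕ) (i : Fin k) :
    Matrix (Fin (n i + q i)) (Fin (n i + q i)) ℂ :=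
  (bk (Yt (n i) (Q i) (t i)) (U i (t i)) 0 1 * bk (Ω i) (w i) 0 (a i))ᵀ

variable {Q : Fin k → Polynomial ℚ} {J0 : ∀ i, Matrix (Fin (n i)) (Fin (n i)) ℂ} {B : ∀ i, ℂ → Matrix (Fin (n i)) (Fin (n i)) ℂ}
  {U : ∀ i, ℕ → Matrix (Fin (n i)) (Fin (q i)) ℂ}

theorem cU_unit (hQ : ∀ i, Fam (n i) (Q i) (J0 i) (B i)) {Ω : ∀ i, Matrix (Fin (n i)) (Fin (n i)) ℂ}
    (hΩ : ∀ i, IsUnit (Ω i)) (w : ∀ i, Matrix (Fin (n i)) (Fin (q i)) ℂ) {a : ∀ i, Matrix (Fin (q i)) (Fin (q i)) ℂ}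
    (ha : ∀ i, IsUnit (a i)) {t : Fin k → ℕ} (ht : ∀ i, 2 ≤ t i) (i : Fin k) : IsUnit (cU Q U Ω w a t i) := by
  have h1 := cM_unit' hQ hΩ ht i
  rw [Matrix.isUnit_iff_isUnit_det] at h1 ⊢
  unfold cM at h1
  unfold cU
  rw [det_transpose] at h1 ⊢
  rw [bk_mul]
  simp only [Matrix.zero_mul, zero_add, Matrix.mul_zero, add_zero, Matrix.one_mul]
  rw [bk_det]
  exact h1.mul ((Matrix.isUnit_iff_isUnit_det _).1 (ha i))

/-- the subtorsors over all number fields of degree at most `D` are stable -/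
def StaU (D : ℕ) (c₀ : Matrix B₀ B₀ ℂ) (Q : Fin k → Polynomial ℚ) (J0 : ∀ i, Matrix (Fin (n i)) (Fin (n i)) ℂ)
    (U : ∀ i, ℕ → Matrix (Fin (n i)) (Fin (q i)) ℂ)
    (Ω : ∀ i, Matrix (Fin (n i)) (Fin (n i)) ℂ) (w : ∀ i, Matrix (Fin (n i)) (Fin (q i)) ℂ)
    (a : ∀ i, Matrix (Fin (q i)) (Fin (q i)) ℂ) (t : Fin k → ℕ) : Prop :=
  ∀ K : Subfield ℂ, FiniteDimensional ℚ K → Module.finrank ℚ K ≤ D →
  ∀ T : Set (Matrix (IM B₀ fun i => n i + q i) (IM B₀ fun i => n i + q i) ℂ), IsSubtorsor K T →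
    EM c₀ (fun i => kum ((Real.log (t i) : ℝ) : ℂ) tpi) (cU Q U Ω w a t) ∈ T →
    ∀ (u : Fin k → ℂ) (g : ∀ i, Matrix (Fin (n i)) (Fin (n i)) ℂ) (x : ∀ i, Matrix (Fin (q i)) (Fin (n i)) ℂ),
      (∀ i, SI (PO J0 Ω i) (g i)) →
      ∀ X ∈ T, EM 1 (fun i => uu (u i)) (fun i => bk (g i) 0 (x i) 1) * X ∈ T

end

/-- **All subtorsors are stable under the semidirect products, for almost all tuples.** -/
theorem stab_of_TP (k D r : ℕ) (n q : Fin k → ℕ) (Q : Fin k → Polynomial ℚ)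
    (J0 : ∀ i, Matrix (Fin (n i)) (Fin (n i)) ℂ)
    (B : ∀ i, ℂ → Matrix (Fin (n i)) (Fin (n i)) ℂ) (U : ∀ i, ℕ → Matrix (Fin (n i)) (Fin (q i)) ℂ)
    (hQ : ∀ i, Fam (n i) (Q i) (J0 i) (B i))
    (hJ : ∀ i, (J0 i)ᵀ = -J0 i ∨ ((J0 i)ᵀ = J0 i ∧ 3 ≤ n i)) (hTP : TP k n q Q J0 B U) :
    ∃ c C : ℝ, 0 < c ∧ 0 ≤ C ∧
      ∀ (B₀ : Type) [Fintype B₀] [DecidableEq B₀] (c₀ : Matrix B₀ B₀ ℂ), Fintype.card B₀ ≤ r → IsUnit c₀ →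
      ∀ Ω : (∀ i, Matrix (Fin (n i)) (Fin (n i)) ℂ), (∀ i, IsUnit (Ω i)) →
      ∀ (w : ∀ i, Matrix (Fin (n i)) (Fin (q i)) ℂ) (a : ∀ i, Matrix (Fin (q i)) (Fin (q i)) ℂ), (∀ i, IsUnit (a i)) →
      ∀ (x : Fin k → ℕ) (N : ℕ), (∀ i, 1 ≤ x i) →
      1 ≤ N → ∀ S : Finset (Fin k → ℕ), (∀ t ∈ S, (∀ i, x i < t i ∧ t i ≤ x i + N) ∧ ¬ StaU D c₀ Q J0 U Ω w a t) →
      (S.card : ℝ) ≤ C * (N : ℝ) ^ (k - 1) * ∑ i, (1 + N / ((x i : ℝ) + N) ^ c) := by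
  classical
  obtain ⟨d, hd⟩ := stabK (r + ∑ i, (2 + (n i + q i))) D
  obtain ⟨c, C, hc, hC, hmain⟩ := hTP d ((1 + (r * r + 1) + 1) ^ (d + 1))
  refine ⟨c, C, hc, hC, ?_⟩
  intro B₀ _ _ c₀ hr hc₀ Ω hΩ w a ha x N hx hN S hS
  obtain ⟨hbf, hb1⟩ := bot_fin
  obtain ⟨W, hW1, hW2, hKW, hW3⟩ := exists_W' (⊥ : Subfield ℂ) (fun o : Option (B₀ × B₀) => o.elim tpi fun b => c₀ b.1 b.2)
  obtain ⟨hp1, hp2⟩ := finrank_pow_le W (d + 1)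
  have hWD : Module.finrank ℚ W ≤ 1 + (r * r + 1) + 1 := by
    refine hW2.trans ?_
    rw [Fintype.card_option, Fintype.card_prod]
    have := Nat.mul_le_mul hr hr
    omega
  have hUG : ∀ i, ∃ 𝒩, UG (GX (PO J0 Ω) q i) 𝒩 := by
    intro i
    have hdet := PO_det hQ hΩ i
    rcases hJ i with h | ⟨h, h3⟩
    · have hP : (PO J0 Ω i)ᵀ = -PO J0 Ω i := by
        unfold PO
        rw [transpose_mul, transpose_mul, transpose_transpose, h, Matrix.neg_mul, Matrix.mul_neg, Matrix.mul_assoc]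
      exact ⟨_, UG.mixed (UG.skew hP hdet) (faith_skew hdet) (q i)⟩
    · have hP : (PO J0 Ω i)ᵀ = PO J0 Ω i := by
        unfold PO
        rw [transpose_mul, transpose_mul, transpose_transpose, h, Matrix.mul_assoc]
      exact ⟨_, UG.mixed (UG.symm hP hdet h3) (faith_symm (inv_symm hP) (inv_det hdet) h3) (q i)⟩
  choose 𝒩 h𝒩 using hUG
  refine hmain (W ^ (d + 1)) (hp2.trans (Nat.pow_le_pow_left hWD _)) (fun i => bk (Ω i) (w i) 0 (a i)) x N hx hN S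
    fun t ht => ?_
  obtain ⟨hbox, hSt⟩ := hS t ht
  refine ⟨hbox, ?_⟩
  by_contra hcon
  apply hSt
  have ht2 : ∀ i, 2 ≤ t i := fun i => by
    have := (hbox i).1
    have := hx i
    omega
  intro K hKf hKD T hT hcT u₀ g₀ x₀ hg₀
  refine hd B₀ k (fun i => n i + q i) ?_ c₀ _ (cU Q U Ω w a t) (GX (PO J0 Ω) q) 𝒩 hc₀
    (cU_unit hQ hΩ w ha ht2) h𝒩 GX_mul GX_inv ?_ K hKf hKD T hT hcT u₀ _ (fun i => ⟨g₀ i, x₀ i, hg₀ i, rfl⟩)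
  · rw [card_IM]
    exact Nat.add_le_add_right hr _
  · intro u gt hgt
    choose g y hg hgy using hgt
    have hgt' : gt = fun i => bk (g i) 0 (y i) 1 := funext hgy
    subst hgt'
    have hΩi : ∀ i, (Ω i)⁻¹ * Ω i = 1 := fun i => nonsing_inv_mul _ ((Matrix.isUnit_iff_isUnit_det _).1 (hΩ i))
    have hΩi' : ∀ i, Ω i * (Ω i)⁻¹ = 1 := fun i => mul_nonsing_inv _ ((Matrix.isUnit_iff_isUnit_det _).1 (hΩ i))
    have hai : ∀ i, (a i)⁻¹ * a i = 1 := fun i => nonsing_inv_mul _ ((Matrix.isUnit_iff_isUnit_det _).1 (ha i))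
    set G : ∀ i, Matrix (Fin (n i)) (Fin (n i)) ℂ := fun i => Yt (n i) (Q i) (t i) * Ω i * (g i)ᵀ * (Ω i)⁻¹ with hG
    set z : ∀ i, Matrix (Fin (n i)) (Fin (q i)) ℂ := fun i => (Yt (n i) (Q i) (t i) * Ω i * (y i)ᵀ +
      (Yt (n i) (Q i) (t i) * w i + U i (t i) * a i) - G i * w i) * (a i)⁻¹ with hz
    have hkey : ∀ i, bk (Yt (n i) (Q i) (t i)) (U i (t i)) 0 1 * bk (Ω i) (w i) 0 (a i) * (bk (g i) 0 (y i) 1)ᵀ =
        bk (G i) (z i) 0 1 * bk (Ω i) (w i) 0 (a i) := by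
      intro i
      rw [bk_transpose, bk_mul, bk_mul, bk_mul]
      have e1 : G i * Ω i = Yt (n i) (Q i) (t i) * Ω i * (g i)ᵀ := by
        rw [hG]
        show Yt (n i) (Q i) (t i) * Ω i * (g i)ᵀ * (Ω i)⁻¹ * Ω i = _
        rw [Matrix.mul_assoc _ (Ω i)⁻¹, hΩi, Matrix.mul_one]
      have e2 : G i * w i + z i * a i = Yt (n i) (Q i) (t i) * Ω i * (y i)ᵀ +
          (Yt (n i) (Q i) (t i) * w i + U i (t i) * a i) := by
        rw [hz]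
        show G i * w i + (Yt (n i) (Q i) (t i) * Ω i * (y i)ᵀ +
          (Yt (n i) (Q i) (t i) * w i + U i (t i) * a i) - G i * w i) * (a i)⁻¹ * a i = _
        rw [Matrix.mul_assoc _ (a i)⁻¹, hai, Matrix.mul_one]
        abel
      rw [e1, e2]
      simp
    have hgc : (fun i => (fun i => bk (g i) 0 (y i) 1) i * cU Q U Ω w a t i) =
        fun i => (bk (G i) (z i) 0 1 * bk (Ω i) (w i) 0 (a i))ᵀ := by
      funext i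
      rw [← hkey, transpose_mul _ (bk (g i) 0 (y i) 1)ᵀ, transpose_transpose]
      rfl
    rw [hgc]
    have hcX : cU Q U Ω w a t = fun i => (bk (Yt (n i) (Q i) (t i)) (U i (t i)) 0 1 * bk (Ω i) (w i) 0 (a i))ᵀ := rfl
    rw [hcX]
    refine Rl_of hKW (PhiM_DC (hKW 1 (⊥ : Subfield ℂ).one_mem) (fun a b => hW3 (some (a, b))) (hW3 none)) (y := pw (fun i => ((Real.log (t i) : ℝ) : ℂ))
      fun i => bk (Yt (n i) (Q i) (t i)) (U i (t i)) 0 1 * bk (Ω i) (w i) 0 (a i))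
      (y' := pw (fun i => ((Real.log (t i) : ℝ) : ℂ) + u i * tpi)
      fun i => bk (G i) (z i) 0 1 * bk (Ω i) (w i) 0 (a i)) ?_ (fun b => PhiM_eval c₀ tpi _ _ b) (fun b => PhiM_eval c₀ tpi _ _ b)
    intro P hPd hPV hP0
    by_contra hne
    refine hcon ⟨P, hPd, hPV, hP0, fun i => ((Real.log (t i) : ℝ) : ℂ) + u i * tpi, G, z, fun i => ?_, hne⟩
    have hiso : (g i)ᵀᵀ = g i := transpose_transpose _
    have hPi := (hg i).1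
    unfold PO at hPi
    have e1 : (Yt (n i) (Q i) (t i) * Ω i * (g i)ᵀ * (Ω i)⁻¹)ᵀ = ((Ω i)⁻¹)ᵀ * (g i * ((Ω i)ᵀ * (Yt (n i) (Q i) (t i))ᵀ)) := by
      rw [transpose_mul, transpose_mul, transpose_mul, hiso]
    have e2 : ((Ω i)⁻¹)ᵀ * (Ω i)ᵀ = 1 := by rw [← transpose_mul, hΩi', transpose_one]
    rw [hG]
    show (Yt (n i) (Q i) (t i) * Ω i * (g i)ᵀ * (Ω i)⁻¹)ᵀ * B i (((1 / (t i : ℝ) : ℝ)) : ℂ) *
          (Yt (n i) (Q i) (t i) * Ω i * (g i)ᵀ * (Ω i)⁻¹) = J0 i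
    rw [e1]
    calc ((Ω i)⁻¹)ᵀ * (g i * ((Ω i)ᵀ * (Yt (n i) (Q i) (t i))ᵀ)) * B i (((1 / (t i : ℝ) : ℝ)) : ℂ) *
          (Yt (n i) (Q i) (t i) * Ω i * (g i)ᵀ * (Ω i)⁻¹) =
        ((Ω i)⁻¹)ᵀ * (g i * ((Ω i)ᵀ * ((Yt (n i) (Q i) (t i))ᵀ * B i (((1 / (t i : ℝ) : ℝ)) : ℂ) *
          Yt (n i) (Q i) (t i)) * Ω i) * (g i)ᵀ) * (Ω i)⁻¹ := by simp only [Matrix.mul_assoc]
      _ = (((Ω i)⁻¹)ᵀ * (Ω i)ᵀ) * J0 i * (Ω i * (Ω i)⁻¹) := by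
          rw [(hQ i).Yt_form (ht2 i), hPi]
          simp only [Matrix.mul_assoc]
      _ = J0 i := by rw [e2, hΩi', Matrix.one_mul, Matrix.mul_one]

end Run7.h893.NM
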