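import Pool.Agent.Run7.h893.NM.Gen
import Pool.Agent.Run7.h893.AT.Red

/-!
# One family at a time: the other families are part of the fixed object
-/

set_option autoImplicit false
set_option linter.unusedSectionVars false

open Matrix

namespace Run7.h893.NM

open Pool.Agent.TH127.PT Pool.Agent.Y123.ST Pool.Agent.Y123.SR Pool.Agent.Y113 Pool.Agent.Y113.GG Pool.Agent.Y123.GN
open Pool.Agent.Y119.HZ (Jx pw Yt)
open Run7.h893.HO Run7.h893.NF Run7.h893.TO Run7.h893.NT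

variable {B₀ : Type} [Fintype B₀] [DecidableEq B₀] {k : ℕ} {m : Fin k → ℕ}

/-- the index set of the other blocks -/
abbrev Rest (B₀ : Type) {k : ℕ} (m : Fin k → ℕ) (i : Fin k) : Type :=
  B₀ ⊕ (Σ j : {j : Fin k // j ≠ i}, Fin 2 ⊕ Fin (m j.1))

/-- the other blocks -/
noncomputable def rest (i : Fin k) (x : Matrix B₀ B₀ ℂ) (κ : Fin k → Matrix (Fin 2) (Fin 2) ℂ)
    (X : ∀ j, Matrix (Fin (m j)) (Fin (m j)) ℂ) : Matrix (Rest B₀ m i) (Rest B₀ m i) ℂ :=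
  fromBlocks x 0 0 (blockDiagonal' fun j : {j : Fin k // j ≠ i} => fromBlocks (κ j.1) 0 0 (X j.1))

/-- the map of the indices -/
def fi (i : Fin k) : IM (Rest B₀ m i) (fun _ : Fin 1 => m i) → IM B₀ m
  | .inl (.inl b) => .inl b
  | .inl (.inr ⟨j, y⟩) => .inr ⟨j.1, y⟩
  | .inr ⟨_, y⟩ => .inr ⟨i, y⟩

lemma fi_inj (i : Fin k) : Function.Injective (fi (B₀ := B₀) (m := m) i) := by
  rintro ((a | ⟨⟨j, hj⟩, y⟩) | ⟨a, y⟩) ((b | ⟨⟨j', hj'⟩, y'⟩) | ⟨b, y'⟩) h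
  · have h1 : a = b := Sum.inl.inj h
    rw [h1]
  · exact absurd h (by simp [fi])
  · exact absurd h (by simp [fi])
  · exact absurd h (by simp [fi])
  · have h1 : (⟨j, y⟩ : Σ j : Fin k, Fin 2 ⊕ Fin (m j)) = ⟨j', y'⟩ := Sum.inr.inj h
    obtain ⟨h2, h3⟩ := Sigma.mk.inj_iff.1 h1
    subst h2
    rw [eq_of_heq h3]
  · have h1 : (⟨j, y⟩ : Σ j : Fin k, Fin 2 ⊕ Fin (m j)) = ⟨i, y'⟩ := Sum.inr.inj h
    exact absurd (Sigma.mk.inj_iff.1 h1).1 hj
  · exact absurd h (by simp [fi])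
  · have h1 : (⟨i, y⟩ : Σ j : Fin k, Fin 2 ⊕ Fin (m j)) = ⟨j', y'⟩ := Sum.inr.inj h
    exact absurd (Sigma.mk.inj_iff.1 h1).1.symm hj'
  · have h1 : (⟨i, y⟩ : Σ j : Fin k, Fin 2 ⊕ Fin (m j)) = ⟨i, y'⟩ := Sum.inr.inj h
    obtain ⟨-, h3⟩ := Sigma.mk.inj_iff.1 h1
    rw [Subsingleton.elim a b, eq_of_heq h3]

lemma fi_surj (i : Fin k) : Function.Surjective (fi (B₀ := B₀) (m := m) i) := by
  rintro (b | ⟨j, y⟩)
  · exact ⟨.inl (.inl b), rfl⟩
  · by_cases h : j = i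
    · subst h
      exact ⟨.inr ⟨0, y⟩, rfl⟩
    · exact ⟨.inl (.inr ⟨⟨j, h⟩, y⟩), rfl⟩

/-- the equivalence of the indices -/
noncomputable def si (B₀ : Type) [Fintype B₀] [DecidableEq B₀] {k : ℕ} (m : Fin k → ℕ) (i : Fin k) :
    IM (Rest B₀ m i) (fun _ : Fin 1 => m i) ≃ IM B₀ m := Equiv.ofBijective (fi i) ⟨fi_inj i, fi_surj i⟩

lemma card_Rest (i : Fin k) : Fintype.card (Rest B₀ m i) ≤ Fintype.card B₀ + ∑ j, (2 + m j) := by
  rw [← card_IM]
  exact Fintype.card_le_of_injective (fun a => fi i (.inl a)) fun a b h => Sum.inl.inj (fi_inj i h)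

/-- the block matrices -/
lemma EM_sub (i : Fin k) (x : Matrix B₀ B₀ ℂ) (κ : Fin k → Matrix (Fin 2) (Fin 2) ℂ)
    (X : ∀ j, Matrix (Fin (m j)) (Fin (m j)) ℂ) :
    (EM x κ X).submatrix (si B₀ m i) (si B₀ m i) = EM (rest i x κ X) (fun _ : Fin 1 => κ i) (fun _ => X i) := by
  ext a b
  show EM x κ X (fi i a) (fi i b) = _
  obtain (a | ⟨j, y⟩) | ⟨a, y⟩ := a <;> obtain (b | ⟨j', y'⟩) | ⟨b, y'⟩ := b
  · rfl
  · rfl
  · rfl
  · rfl
  · show blockDiagonal' (fun i => fromBlocks (κ i) 0 0 (X i)) ⟨j.1, y⟩ ⟨j'.1, y'⟩ =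
      blockDiagonal' (fun j : {j : Fin k // j ≠ i} => fromBlocks (κ j.1) 0 0 (X j.1)) ⟨j, y⟩ ⟨j', y'⟩
    by_cases h : j = j'
    · subst h
      rw [blockDiagonal'_apply_eq, blockDiagonal'_apply_eq]
    · rw [blockDiagonal'_apply_ne _ _ _ h, blockDiagonal'_apply_ne _ _ _ fun h' => h (Subtype.ext h')]
  · show blockDiagonal' (fun i => fromBlocks (κ i) 0 0 (X i)) ⟨j.1, y⟩ ⟨i, y'⟩ = 0
    rw [blockDiagonal'_apply_ne _ _ _ j.2]
  · rfl
  · show blockDiagonal' (fun i => fromBlocks (κ i) 0 0 (X i)) ⟨i, y⟩ ⟨j'.1, y'⟩ = 0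
    rw [blockDiagonal'_apply_ne _ _ _ fun h => j'.2 h.symm]
  · have hab : a = b := Subsingleton.elim a b
    subst hab
    show blockDiagonal' (fun i => fromBlocks (κ i) 0 0 (X i)) ⟨i, y⟩ ⟨i, y'⟩ =
      blockDiagonal' (fun _ : Fin 1 => fromBlocks (κ i) 0 0 (X i)) ⟨a, y⟩ ⟨a, y'⟩
    rw [blockDiagonal'_apply_eq, blockDiagonal'_apply_eq]

lemma rest_unit (i : Fin k) {x : Matrix B₀ B₀ ℂ} (hx : IsUnit x) {κ : Fin k → Matrix (Fin 2) (Fin 2) ℂ}
    {X : ∀ j, Matrix (Fin (m j)) (Fin (m j)) ℂ} (hκ : ∀ j, j ≠ i → IsUnit (κ j)) (hX : ∀ j, j ≠ i → IsUnit (X j)) :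
    IsUnit (rest i x κ X) := by
  classical
  have h1 : rest i x κ X = rest i x (Function.update κ i 1) (Function.update X i 1) := by
    unfold rest
    congr 2
    funext j
    rw [Function.update_of_ne j.2, Function.update_of_ne j.2]
  have h2 : IsUnit (EM x (Function.update κ i 1) (Function.update X i 1)) := by
    refine EM_isUnit hx (fun j => ?_) fun j => ?_
    · by_cases h : j = i
      · subst h
        rw [Function.update_self]
        exact isUnit_one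
      · rw [Function.update_of_ne h]
        exact hκ j h
    · by_cases h : j = i
      · subst h
        rw [Function.update_self]
        exact isUnit_one
      · rw [Function.update_of_ne h]
        exact hX j h
  have h3 := (Matrix.isUnit_submatrix_equiv (si B₀ m i) (si B₀ m i)).2 h2
  rw [EM_sub] at h3
  rw [h1]
  exact (unit_of_EM h3).1

lemma rest_one (i : Fin k) : rest (m := m) i (1 : Matrix B₀ B₀ ℂ) (fun _ => 1) (fun _ => 1) = 1 := by
  unfold rest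
  have h1 : (fun j : {j : Fin k // j ≠ i} => fromBlocks (1 : Matrix (Fin 2) (Fin 2) ℂ) 0 0
      (1 : Matrix (Fin (m j.1)) (Fin (m j.1)) ℂ)) = 1 := by
    funext j
    exact fromBlocks_one
  rw [h1, blockDiagonal'_one, fromBlocks_one]

end Run7.h893.NM
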