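import Pool.Agent.Run7.h893.MX.Tup
import Pool.Agent.Run7.h893.NT.Hyp

/-!
# Solutions with additional columns: few exceptional tuples for both kinds of extensions
-/

set_option autoImplicit false
set_option linter.unusedSectionVars false

open Matrix

namespace Run7.h893.NM

open Pool.Agent.Y119.HZ (Jx pw Yt Ix)
open Pool.Agent.Y119.HY (cm Am E)
open Run7.h893.HO Run7.h893.NF Run7.h893.NT

/-- few exceptional tuples, for the solutions with additional columns -/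
def TP (k : ℕ) (n q : Fin k → ℕ) (Q : Fin k → Polynomial ℚ) (J0 : ∀ i, Matrix (Fin (n i)) (Fin (n i)) ℂ)
    (B : ∀ i, ℂ → Matrix (Fin (n i)) (Fin (n i)) ℂ) (U : ∀ i, ℕ → Matrix (Fin (n i)) (Fin (q i)) ℂ) : Prop :=
  ∀ δ D : ℕ, ∃ c C : ℝ, 0 < c ∧ 0 ≤ C ∧ ∀ (V : Submodule ℚ ℂ) [Module.Finite ℚ V], Module.finrank ℚ V ≤ D →
    ∀ M : (∀ i, Matrix (Fin (n i + q i)) (Fin (n i + q i)) ℂ), ∀ (x : Fin k → ℕ) (N : ℕ), (∀ i, 1 ≤ x i) → 1 ≤ N →
    ∀ S : Finset (Fin k → ℕ), (∀ t ∈ S, (∀ i, x i < t i ∧ t i ≤ x i + N) ∧ ∃ P : MvPolynomial (Jx fun i => n i + q i) ℂ,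
      P.totalDegree ≤ δ ∧ (∀ s, P.coeff s ∈ V) ∧
      MvPolynomial.aeval (pw (fun i => ((Real.log (t i) : ℝ) : ℂ))
        fun i => bk (Yt (n i) (Q i) (t i)) (U i (t i)) 0 1 * M i) P = 0 ∧
      ∃ (l : Fin k → ℂ) (g : ∀ i, Matrix (Fin (n i)) (Fin (n i)) ℂ) (y : ∀ i, Matrix (Fin (n i)) (Fin (q i)) ℂ),
        (∀ i, (g i).transpose * B i (((1 / (t i : ℝ) : ℝ)) : ℂ) * g i = J0 i) ∧
        MvPolynomial.aeval (pw l fun i => bk (g i) (y i) 0 1 * M i) P ≠ 0) →
    (S.card : ℝ) ≤ C * (N : ℝ) ^ (k - 1) * ∑ i, (1 + N / ((x i : ℝ) + N) ^ c)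

/-- the resonant extensions -/
theorem TP_nf (k : ℕ) (n q : Fin k → ℕ) (hq : ∀ i, q i ≤ 1) (Q : Fin k → Polynomial ℚ)
    (J0 : ∀ i, Matrix (Fin (n i)) (Fin (n i)) ℂ)
    (B : ∀ i, ℂ → Matrix (Fin (n i)) (Fin (n i)) ℂ) (hQ : ∀ i, FamW (n i) (q i) (Q i) (J0 i) (B i)) :
    TP k n q Q J0 B fun i t => Uv (n i) (q i) (Q i) t := by
  intro δ D
  obtain ⟨c, C, hc, hC, hmain⟩ := tuples_x k δ D n q Q J0 B hQ
  refine ⟨c, C, hc, hC, ?_⟩
  intro V _ hV M x N hx hN S hS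
  refine hmain V hV M x N hx hN S fun t ht => ?_
  obtain ⟨hbox, P, h1, h2, h3, l, g, y, hg, h4⟩ := hS t ht
  refine ⟨hbox, P, h1, h2, ?_, l, g, y, hg, ?_⟩
  · have e : (fun i => Yv (n i) (q i) (Q i) (t i) * M i) =
        fun i => bk (Yt (n i) (Q i) (t i)) (Uv (n i) (q i) (Q i) (t i)) 0 1 * M i := by
      funext i
      rw [Yv_bk (hq i)]
    rw [e]
    exact h3
  · have e : (fun i => bk (g i) (y i) 0 (E (cm (Am (q i))) (-l i)) * M i) = fun i => bk (g i) (y i) 0 1 * M i := by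
      funext i
      rw [E_small (hq i)]
    rw [e]
    exact h4

/-! ### the extensions of Kummer motives -/

section mx

open Run7.h893.MX (Kx pz Lc Wn Wn_fin aeval_CV FamR tuples_mix wf)

variable {k : ℕ} {n q : Fin k → ℕ}

/-- the entries of `(X, y; 0, 1)` -/
noncomputable def ent (i : Fin k) (p e : Fin (n i + q i)) : MvPolynomial (Kx n q) ℚ :=
  Fin.addCases (fun b => Fin.addCases (fun d => MvPolynomial.X ⟨i, some (.inl (b, d))⟩)
    (fun j => MvPolynomial.X ⟨i, some (.inr (j, b))⟩) e)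
    (fun j => Fin.addCases (fun _ => 0) (fun j' => if j = j' then 1 else 0) e) p

lemma ent_eval (l : Fin k → ℂ) (X : ∀ i, Matrix (Fin (n i)) (Fin (n i)) ℂ) (y : ∀ i, Fin (q i) → Fin (n i) → ℂ) (i : Fin k)
    (p e : Fin (n i + q i)) : MvPolynomial.aeval (pz l X y) (MvPolynomial.map (algebraMap ℚ ℂ) (ent i p e)) =
      bk (X i) (Matrix.of fun b j => y i j b) 0 1 p e := by
  refine Fin.addCases (fun b => ?_) (fun j => ?_) p <;> refine Fin.addCases (fun d => ?_) (fun j' => ?_) e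
  · rw [bk_cc]
    unfold ent
    rw [Fin.addCases_left, Fin.addCases_left, MvPolynomial.map_X, MvPolynomial.aeval_X]
    rfl
  · rw [bk_cn]
    unfold ent
    rw [Fin.addCases_left, Fin.addCases_right, MvPolynomial.map_X, MvPolynomial.aeval_X]
    rfl
  · rw [bk_nc]
    unfold ent
    rw [Fin.addCases_right, Fin.addCases_left, map_zero, map_zero]
    rfl
  · rw [bk_nn]
    unfold ent
    rw [Fin.addCases_right, Fin.addCases_right, Matrix.one_apply]
    split_ifs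
    · rw [map_one, map_one]
    · rw [map_zero, map_zero]

lemma ent_deg (i : Fin k) (p e : Fin (n i + q i)) : (ent (n := n) (q := q) i p e).totalDegree ≤ 1 := by
  refine Fin.addCases (fun b => ?_) (fun j => ?_) p <;> refine Fin.addCases (fun d => ?_) (fun j' => ?_) e
  · unfold ent
    rw [Fin.addCases_left, Fin.addCases_left, MvPolynomial.totalDegree_X]
  · unfold ent
    rw [Fin.addCases_left, Fin.addCases_right, MvPolynomial.totalDegree_X]
  · unfold ent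
    rw [Fin.addCases_right, Fin.addCases_left, MvPolynomial.totalDegree_zero]
    exact Nat.zero_le _
  · unfold ent
    rw [Fin.addCases_right, Fin.addCases_right]
    split_ifs
    · rw [MvPolynomial.totalDegree_one]
      exact Nat.zero_le _
    · rw [MvPolynomial.totalDegree_zero]
      exact Nat.zero_le _

/-- the substitution -/
noncomputable def sbm (M : ∀ i, Matrix (Fin (n i + q i)) (Fin (n i + q i)) ℂ) :
    (Jx fun i => n i + q i) → MvPolynomial (Kx n q) ℂ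
  | ⟨i, none⟩ => MvPolynomial.X ⟨i, none⟩
  | ⟨i, some p⟩ => ∑ e, MvPolynomial.C (M i e p.2) * MvPolynomial.map (algebraMap ℚ ℂ) (ent i p.1 e)

/-- the constants -/
noncomputable def om (M : ∀ i, Matrix (Fin (n i + q i)) (Fin (n i + q i)) ℂ) : Option (Ix fun i => n i + q i) → ℂ
  | none => 1
  | some v => M v.1 v.2.1 v.2.2

lemma sbm_eval (M : ∀ i, Matrix (Fin (n i + q i)) (Fin (n i + q i)) ℂ) (l : Fin k → ℂ)
    (X : ∀ i, Matrix (Fin (n i)) (Fin (n i)) ℂ) (y : ∀ i, Fin (q i) → Fin (n i) → ℂ) (v : Jx fun i => n i + q i) :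
    MvPolynomial.aeval (pz l X y) (sbm M v) =
      pw l (fun i => bk (X i) (Matrix.of fun b j => y i j b) 0 1 * M i) v := by
  obtain ⟨i, _ | p⟩ := v
  · show MvPolynomial.aeval (pz l X y) (MvPolynomial.X _) = _
    rw [MvPolynomial.aeval_X]
    rfl
  · show MvPolynomial.aeval (pz l X y) (∑ e, MvPolynomial.C (M i e p.2) * MvPolynomial.map (algebraMap ℚ ℂ) (ent i p.1 e)) =
      (bk (X i) (Matrix.of fun b j => y i j b) 0 1 * M i) p.1 p.2
    rw [map_sum, Matrix.mul_apply]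
    refine Finset.sum_congr rfl fun e _ => ?_
    rw [map_mul, MvPolynomial.aeval_C, ent_eval, mul_comm]
    rfl

lemma sbm_lc (M : ∀ i, Matrix (Fin (n i + q i)) (Fin (n i + q i)) ℂ) (v : Jx fun i => n i + q i) : Lc (om M) (sbm M v) := by
  obtain ⟨i, _ | p⟩ := v
  · have h1 := Lc.one (ω := om M) (o := none) rfl (MvPolynomial.X (⟨i, none⟩ : Kx n q))
    rw [MvPolynomial.map_X] at h1
    exact h1
  · exact Lc.sum _ fun e _ => Lc.single (ω := om M) (some ⟨i, e, p.2⟩) _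

lemma sbm_deg (M : ∀ i, Matrix (Fin (n i + q i)) (Fin (n i + q i)) ℂ) (v : Jx fun i => n i + q i) :
    (sbm M v).totalDegree ≤ 1 := by
  obtain ⟨i, _ | p⟩ := v
  · show (MvPolynomial.X _ : MvPolynomial (Kx n q) ℂ).totalDegree ≤ _
    rw [MvPolynomial.totalDegree_X]
  · show (∑ e, MvPolynomial.C (M i e p.2) * MvPolynomial.map (algebraMap ℚ ℂ) (ent i p.1 e) :
      MvPolynomial (Kx n q) ℂ).totalDegree ≤ _
    refine (MvPolynomial.totalDegree_finsetSum _ _).trans (Finset.sup_le fun e _ => ?_)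
    refine (MvPolynomial.totalDegree_mul _ _).trans ?_
    rw [MvPolynomial.totalDegree_C, zero_add]
    exact (Finset.sup_mono (MvPolynomial.support_map_subset _ _)).trans (ent_deg i p.1 e)

/-- the columns of the inhomogeneous solutions -/
noncomputable def Ur (n q : ℕ) (Q : Polynomial ℚ) (r : Fin q → ℚ) (t : ℕ) : Matrix (Fin n) (Fin q) ℂ :=
  Matrix.of fun b j => (((1 / (t : ℝ)) ^ ((r j : ℚ) : ℝ) : ℝ) : ℂ) * wf n Q (r j) b (((1 / (t : ℝ) : ℝ)) : ℂ)

/-- the extensions of Kummer motives -/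
theorem TP_mx (k : ℕ) (n q : Fin k → ℕ) (Q : Fin k → Polynomial ℚ) (J0 : ∀ i, Matrix (Fin (n i)) (Fin (n i)) ℂ)
    (B : ∀ i, ℂ → Matrix (Fin (n i)) (Fin (n i)) ℂ) (r : ∀ i, Fin (q i) → ℚ)
    (hQ : ∀ i, FamR (n i) (Q i) (J0 i) (B i) (r i)) :
    TP k n q Q J0 B fun i t => Ur (n i) (q i) (Q i) (r i) t := by
  classical
  intro δ D
  obtain ⟨c, C, hc, hC, hmain⟩ := tuples_mix k (δ * 1) ((Fintype.card (Option (Ix fun i => n i + q i))) ^ δ * D) n q Q J0 B r hQ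
  refine ⟨c, C, hc, hC, ?_⟩
  intro V _ hV M x N hx hN S hS
  obtain ⟨hfin, hrank⟩ := Wn_fin (om M) V δ
  refine hmain (Wn (om M) V δ) (hrank.trans (Nat.mul_le_mul_left _ hV)) (fun _ => 1) (fun _ _ => 1) (fun _ _ _ => 0) x N hx hN S
    fun t ht => ?_
  obtain ⟨hbox, P, h1, h2, h3, l, g, y, hg, h4⟩ := hS t ht
  have hbd := aeval_CV (ω := om M) (o := none) rfl (sbm_lc M) (sbm_deg M) h1 h2
  have hsub : ∀ (l : Fin k → ℂ) (X : ∀ i, Matrix (Fin (n i)) (Fin (n i)) ℂ) (y : ∀ i, Fin (q i) → Fin (n i) → ℂ),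
      MvPolynomial.aeval (pz l X y) (MvPolynomial.aeval (sbm M) P) =
        MvPolynomial.aeval (pw l (fun i => bk (X i) (Matrix.of fun b j => y i j b) 0 1 * M i)) P := by
    intro l X y
    have h5 : MvPolynomial.aeval (pz l X y) (MvPolynomial.aeval (sbm M) P) =
        MvPolynomial.aeval (fun v => MvPolynomial.aeval (pz l X y) (sbm M v)) P := MvPolynomial.aeval_bind₁ _ _ _
    rw [h5]
    simp only [sbm_eval]
  refine ⟨hbox, MvPolynomial.aeval (sbm M) P, hbd.2, hbd.1, ?_, l, g, fun i j b => y i b j, hg, ?_⟩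
  · have e1 : (fun i => Yt (n i) (Q i) (t i) * (fun _ => 1 : ∀ i, Matrix (Fin (n i)) (Fin (n i)) ℂ) i) =
        fun i => Yt (n i) (Q i) (t i) := by
      funext i
      exact Matrix.mul_one _
    have e2 : (fun (i : Fin k) (j : Fin (q i)) (b : Fin (n i)) => (fun (_ : Fin k) _ => (1 : ℂ) : ∀ i, Fin (q i) → ℂ) i j *
        ((((1 / (t i : ℝ)) ^ ((r i j : ℚ) : ℝ) : ℝ) : ℂ) * wf (n i) (Q i) (r i j) b (((1 / (t i : ℝ) : ℝ)) : ℂ)) +
            ∑ d, Yt (n i) (Q i) (t i) b d * (fun _ _ _ => 0 : ∀ i, Fin (q i) → Fin (n i) → ℂ) i j d) =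
        fun (i : Fin k) (j : Fin (q i)) (b : Fin (n i)) => Ur (n i) (q i) (Q i) (r i) (t i) b j := by
      funext i j b
      simp [Ur]
    rw [e1, e2, hsub]
    exact h3
  · have e1 : (fun i => g i * (fun _ => 1 : ∀ i, Matrix (Fin (n i)) (Fin (n i)) ℂ) i) = g := by
      funext i
      exact Matrix.mul_one _
    have e2 : (fun (i : Fin k) (j : Fin (q i)) (b : Fin (n i)) => (fun (_ : Fin k) _ => (1 : ℂ) : ∀ i, Fin (q i) → ℂ) i j *
        (fun i j b => y i b j : ∀ i, Fin (q i) → Fin (n i) → ℂ) i j b +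
            ∑ d, g i b d * (fun _ _ _ => 0 : ∀ i, Fin (q i) → Fin (n i) → ℂ) i j d) =
        fun (i : Fin k) (j : Fin (q i)) (b : Fin (n i)) => y i b j := by
      funext i j b
      simp
    rw [e1, e2, hsub]
    exact h4

end mx

end Run7.h893.NM
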